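import Pool.Agent.H833.EK.Final

/-!
# Voisin's anti-symmetrization conjecture for zero-cycles on elliptic K3 surfaces

The case `l = 0` of the question, for all `N = n + 1 ≥ 2` and all K3 surfaces `S` with a fibration in
curves of genus one: let `z` be a zero-cycle on `S^N` with rational coefficients which is antisymmetric
modulo rational equivalence, and whose push forward to `S^{N-1}` is rationally equivalent to zero. Then
`z` is rationally equivalent to zero, that is, `K_0 = 0`, and in particular the antisymmetrization of
`z × w` is rationally equivalent to zero for all zero-cycles `w` on `S`.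

As in `MP_83b46e_ag.EllipticK3` the surface `S` is a double cover `dcover e c` of the ruled surface
`F_e`, or a resolution of it (all K3 surfaces with a fibration in curves of genus one with a section or a
`2`-section are obtained in this way), or any variety with a fibration in curves of genus one over the
line whose Jacobian has coefficients of degree at most `8` and `12`, such as all K3 surfaces with a
fibration in curves of genus one.
-/

set_option autoImplicit false

namespace Pool.Agent.Results.MP_292d0f_ag.ZeroCycles

open Pool.Agent.H833.EK Polynomial

/-- **Voisin's anti-symmetrization conjecture for zero-cycles on the powers of K3 surfaces with a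
fibration in curves of genus one.** -/
theorem result {k : Type} [Field k] [CharZero k] [IsAlgClosed k] (n : ℕ) (hn : 1 ≤ n) :
    (∀ (e : ℕ) (c : Fin 5 → MvPolynomial (Fin 2) k), Wts e c → AntiVanish (dcover e c) n ∧
      ∀ (S : Geo k) (π : Geo.Hom S (dcover e c)), Geo.Resolves π → AntiVanish S n) ∧
    ∀ (S : Geo k) (a b : k[X]) (r : k), S.Nice → a.natDegree ≤ 8 → b.natDegree ≤ 12 →
      (disc a b).eval r = 0 → GenusOne S a b → AntiVanish S n :=
  ⟨fun _ _ hc => ⟨anti_dcover hc hn, fun _ _ hπ => anti_res hc hn hπ⟩,
    fun _ _ _ _ hS ha hb hr T => anti_genusOne hS T ha hb hr hn⟩

end Pool.Agent.Results.MP_292d0f_ag.ZeroCycles
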